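import Pool.Agent.H992.SF.GDefs

/-!
# SG/INV2: joint near invariance
-/

set_option autoImplicit false
open MeasureTheory Filter Topology Complex ProbabilityTheory
open scoped ContDiff ENNReal

namespace Pool.Agent.H653.SG

open Pool.Agent.W745.RW (TF)
open Pool.Agent.N661.BH (HP)
open Pool.Agent.N814.BHM (P mass)
open Pool.Agent.N814.BHASM (Hyp ex ex_norm ex_meas probz probP)
open Pool.Agent.H992.LB (eX SX fs SX_fs)
open Pool.Agent.H992.SF

theorem ex_eq {k : ℕ} (lam : ℝ) (u : ℂ → ℝ) (w : Fin k → ℂ) (t : Fin k → ℝ)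
    (p : ℂ × (ℝ × Bool)) : ex lam u (fun j => (t j : ℂ)) w p = eX lam u (fs w t) p := by
  unfold eX ex
  rw [SX_fs]

theorem fs_shift {k : ℕ} (w : Fin k → ℂ) (t : Fin k → ℝ) (x : ℂ) :
    fs (fun j => w j + x) t = (fs w t).mapDomain (· + x) := by
  unfold fs
  rw [Finsupp.mapDomain_finsetSum]
  exact Finset.sum_congr rfl fun j _ => by rw [Finsupp.mapDomain_single]

theorem fs_zero {k : ℕ} (w : Fin k → ℂ) : fs w (0 : Fin k → ℝ) = 0 := by
  unfold fs
  simp

theorem integ {d : ℕ} {Ω : Set ℂ} {lam : Fin d → ℕ → ℝ} {u : Fin d → ℕ → ℂ → ℝ}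
    (H : ∀ i, Hyp Ω (lam i) (u i)) (i₀ : Fin d) {ψ : ℂ → ℝ} (hψ : TF Ω ψ) {k : ℕ}
    (w : Fin d → Fin k → ℂ) (t : Fin d → Fin k → ℝ) (n : ℕ) :
    Integrable (fun p : ℂ × (ℝ × Bool) => (ψ p.1 : ℂ) *
      eXJ (fun i => lam i n) (fun i => u i n) (fun i => fs (w i) (t i)) p) (P Ω) := by
  have := probz (H i₀)
  have := probP (H i₀)
  obtain ⟨C, hC⟩ := hψ.2.1.exists_bound_of_continuous hψ.1.continuous
  have he : (fun p : ℂ × (ℝ × Bool) => (ψ p.1 : ℂ) *
      eXJ (fun i => lam i n) (fun i => u i n) (fun i => fs (w i) (t i)) p) =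
      fun p => (ψ p.1 : ℂ) * ∏ i, ex (lam i n) (u i n) (fun j => (t i j : ℂ)) (w i) p := by
    funext p
    unfold eXJ
    congr 1
    exact Finset.prod_congr rfl fun i _ => (ex_eq _ _ _ _ _).symm
  rw [he]
  have hm : Measurable (fun p : ℂ × (ℝ × Bool) => (ψ p.1 : ℂ) *
      ∏ i, ex (lam i n) (u i n) (fun j => (t i j : ℂ)) (w i) p) := by
    apply Measurable.mul
    · exact Complex.measurable_ofReal.comp (hψ.1.continuous.measurable.comp measurable_fst)
    · exact Finset.measurable_fun_prod _ fun i _ => ex_meas ((H i).sm n) _ _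
  refine Integrable.of_bound hm.aestronglyMeasurable C (Eventually.of_forall fun p => ?_)
  rw [norm_mul, norm_prod]
  have h1 : ∏ i, ‖ex (lam i n) (u i n) (fun j => (t i j : ℂ)) (w i) p‖ = 1 :=
    Finset.prod_eq_one fun i _ => ex_norm _ _ _ _ _
  rw [h1, mul_one, Complex.norm_real]
  exact hC p.1

theorem inv2 (h1 : S_LINV2) (h2 : S_BRIDGE2) : S_INV2 := by
  intro d Ω lam u H i₀ c ψ hψ k w t x ht
  have hd : 0 < d := Fin.pos i₀
  classical
  have hS : ∀ i ∈ Finset.univ.filter (fun i => t i ≠ 0),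
      Tendsto (fun n => √(lam i n / lam i₀ n)) atTop (𝓝 (c i)) := by
    intro i hi
    rw [Finset.mem_filter] at hi
    exact (ht i).resolve_left hi.2
  have hOn : On (Finset.univ.filter (fun i => t i ≠ 0)) (fun i => fs (w i) (t i)) := by
    intro i hi
    rw [Finset.mem_filter, not_and, not_not] at hi
    show fs (w i) (t i) = 0
    rw [hi (Finset.mem_univ i)]
    exact fs_zero _
  have hL := h1 d Ω lam u H i₀ _ c hS ψ (Or.inl hψ) (fun i => fs (w i) (t i)) hOn x
  have b1 := h2 d Ω lam u H hd ψ (Or.inl hψ) k (fun i j => w i j + (c i : ℂ) * x) t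
  have b2 := h2 d Ω lam u H hd ψ (Or.inl hψ) k w t
  have hL2 := hL.const_mul (mass Ω : ℂ)
  rw [mul_zero] at hL2
  refine hL2.congr' ?_
  filter_upwards [b1, b2] with n e1 e2
  have hsh : sh c x (fun i => fs (w i) (t i)) =
      fun i => fs (fun j => w i j + (c i : ℂ) * x) (t i) := by
    funext i
    exact (fs_shift (w i) (t i) ((c i : ℂ) * x)).symm
  rw [e1, e2, ← mul_sub, hsh,
    ← integral_sub (integ H i₀ hψ (fun i j => w i j + (c i : ℂ) * x) t n) (integ H i₀ hψ w t n)]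
  congr 1
  refine integral_congr_ae (Eventually.of_forall fun p => ?_)
  show (ψ p.1 : ℂ) * (_ - _) = (ψ p.1 : ℂ) * _ - (ψ p.1 : ℂ) * _
  rw [mul_sub]

end Pool.Agent.H653.SG
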